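import Mathlib

/-!
# The Erdős–Heilbronn bound `|D ∔ D| ≥ 2 |D| - 3` (when `2 |D| - 4 < p`)

Proved with the combinatorial Nullstellensatz (Alon–Nathanson–Ruzsa).
-/

namespace Pool.Agent.Q248.EH

open Finset MvPolynomial

variable {p : ℕ} [Fact p.Prime]

/-- the polynomial `(x - y) ∏ (x + y - c)` -/
noncomputable def P (L : List (ZMod p)) : MvPolynomial (Fin 2) (ZMod p) :=
  (X 0 - X 1) * (L.map (fun c => X 0 + X 1 - C c)).prod

/-- the exponent `x^i y^j` -/
noncomputable def ex (i j : ℕ) : Fin 2 →₀ ℕ := Finsupp.single 0 i + Finsupp.single 1 j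

theorem ex_zero (i j : ℕ) : ex i j 0 = i := by simp [ex]

theorem ex_one (i j : ℕ) : ex i j 1 = j := by simp [ex]

theorem ex_degree (i j : ℕ) : (ex i j).degree = i + j := by
  rw [ex, map_add, Finsupp.degree_single, Finsupp.degree_single]

theorem ex_sub_zero (i j : ℕ) : ex i j - Finsupp.single 0 1 = ex (i - 1) j := by
  ext k
  fin_cases k <;> simp [ex]

theorem ex_sub_one (i j : ℕ) : ex i j - Finsupp.single 1 1 = ex i (j - 1) := by
  ext k
  fin_cases k <;> simp [ex]

theorem P_cons (c : ZMod p) (L : List (ZMod p)) :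
    P (c :: L) = P L * X 0 + P L * X 1 - C c * P L := by
  unfold P
  rw [List.map_cons, List.prod_cons]
  ring

theorem totalDegree_P (L : List (ZMod p)) : (P L).totalDegree ≤ L.length + 1 := by
  induction L with
  | nil =>
    unfold P
    simp only [List.map_nil, List.prod_nil, mul_one, List.length_nil, zero_add]
    refine (totalDegree_sub _ _).trans ?_
    simp [totalDegree_X]
  | cons c L ih =>
    rw [P_cons, List.length_cons]
    refine (totalDegree_sub _ _).trans (max_le ?_ ?_)
    · refine (totalDegree_add _ _).trans (max_le ?_ ?_)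
      · refine (totalDegree_mul _ _).trans ?_
        rw [totalDegree_X]; omega
      · refine (totalDegree_mul _ _).trans ?_
        rw [totalDegree_X]; omega
    · refine (totalDegree_mul _ _).trans ?_
      rw [totalDegree_C]; omega

/-- the top coefficients -/
def kk (n i : ℕ) : ZMod p := (if i = 0 then 0 else ((n.choose (i - 1) : ℕ) : ZMod p)) -
  ((n.choose i : ℕ) : ZMod p)

theorem coeff_P (L : List (ZMod p)) : ∀ i j : ℕ, i + j = L.length + 1 →
    coeff (ex i j) (P L) = kk L.length i := by
  induction L with
  | nil =>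
    intro i j hij
    simp only [List.length_nil, zero_add] at hij
    unfold P
    simp only [List.map_nil, List.prod_nil, mul_one, List.length_nil, coeff_sub]
    rw [coeff_X, coeff_X]
    have h : (i = 1 ∧ j = 0) ∨ (i = 0 ∧ j = 1) := by omega
    rcases h with ⟨rfl, rfl⟩ | ⟨rfl, rfl⟩
    · have h1 : Finsupp.single (0 : Fin 2) 1 = ex 1 0 := by simp [ex]
      have h2 : ¬ Finsupp.single (1 : Fin 2) 1 = ex 1 0 := by
        intro h
        have := DFunLike.congr_fun h 0
        simp [ex] at this
      rw [if_pos h1, if_neg h2]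
      simp [kk]
    · have h1 : ¬ Finsupp.single (0 : Fin 2) 1 = ex 0 1 := by
        intro h
        have := DFunLike.congr_fun h 0
        simp [ex] at this
      have h2 : Finsupp.single (1 : Fin 2) 1 = ex 0 1 := by simp [ex]
      rw [if_neg h1, if_pos h2]
      simp [kk]
  | cons c L ih =>
    intro i j hij
    rw [List.length_cons] at hij
    rw [P_cons, coeff_sub, coeff_add, coeff_C_mul, coeff_mul_X', coeff_mul_X',
      ex_sub_zero, ex_sub_one, List.length_cons]
    have h0 : coeff (ex i j) (P L) = 0 := by
      apply coeff_eq_zero_of_totalDegree_lt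
      rw [← Finsupp.degree_apply, ex_degree]
      have := totalDegree_P L
      omega
    rw [h0, mul_zero, sub_zero]
    have e0 : (0 : Fin 2) ∈ (ex i j).support ↔ i ≠ 0 := by
      rw [Finsupp.mem_support_iff, ex_zero]
    have e1 : (1 : Fin 2) ∈ (ex i j).support ↔ j ≠ 0 := by
      rw [Finsupp.mem_support_iff, ex_one]
    simp only [e0, e1]
    unfold kk at ih ⊢
    rcases Nat.eq_zero_or_pos i with hi | hi
    · subst hi
      have hj : j ≠ 0 := by omega
      rw [if_neg (by simp), if_pos hj, ih 0 (j - 1) (by omega)]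
      simp
    · obtain ⟨i', rfl⟩ : ∃ i', i = i' + 1 := ⟨i - 1, by omega⟩
      rcases Nat.eq_zero_or_pos j with hj | hj
      · subst hj
        have hi' : i' = L.length + 1 := by omega
        rw [if_pos (by omega), if_neg (by simp), ih (i' + 1 - 1) 0 (by omega)]
        rw [if_neg (by omega), if_neg (by omega)]
        have a1 : L.length.choose (L.length + 1) = 0 := Nat.choose_eq_zero_of_lt (by omega)
        have a2 : (L.length + 1).choose (L.length + 1 + 1) = 0 :=
          Nat.choose_eq_zero_of_lt (by omega)
        subst hi'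
        simp [a1, a2]
      · rw [if_pos (by omega), if_pos (by omega), ih (i' + 1 - 1) j (by omega),
          ih (i' + 1) (j - 1) (by omega)]
        simp only [Nat.add_sub_cancel]
        rw [if_neg (by omega : ¬ i' + 1 = 0), if_neg (by omega : ¬ i' + 1 = 0)]
        rcases Nat.eq_zero_or_pos i' with hi' | hi'
        · subst hi'
          simp
          ring
        · obtain ⟨i'', rfl⟩ : ∃ i'', i' = i'' + 1 := ⟨i' - 1, by omega⟩
          rw [if_neg (by omega : ¬ i'' + 1 = 0)]
          simp only [Nat.add_sub_cancel]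
          rw [Nat.choose_succ_succ L.length i'', Nat.choose_succ_succ L.length (i'' + 1)]
          push_cast
          ring

theorem kk_ne_zero {k : ℕ} (hk : 2 ≤ k) (hp : 2 * k - 4 < p) :
    kk (p := p) (2 * k - 4) (k - 1) ≠ 0 := by
  intro h
  unfold kk at h
  rw [if_neg (by omega)] at h
  obtain ⟨b, rfl⟩ : ∃ b, k = b + 2 := ⟨k - 2, by omega⟩
  have e1 : 2 * (b + 2) - 4 = 2 * b := by omega
  have e2 : b + 2 - 1 = b + 1 := by omega
  have e3 : b + 1 - 1 = b := by omega
  rw [e1, e2, e3] at h
  rw [e1] at hp
  -- `(b + 1) * choose (2b) (b+1) = b * choose (2b) b`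
  have h1 : (2 * b).choose (b + 1) * (b + 1) = (2 * b).choose b * (2 * b - b) :=
    Nat.choose_succ_right_eq (2 * b) b
  have h2 : (2 * b).choose (b + 1) * (b + 1) + (2 * b).choose b = (2 * b).choose b * (b + 1) := by
    rw [h1, show 2 * b - b = b by omega]; ring
  have h3 : (((2 * b).choose b : ℕ) : ZMod p) = 0 := by
    have h4 : (((2 * b).choose (b + 1) * (b + 1) + (2 * b).choose b : ℕ) : ZMod p) =
        (((2 * b).choose b * (b + 1) : ℕ) : ZMod p) := by rw [h2]
    push_cast at h4
    have h5 : (((2 * b).choose (b + 1) : ℕ) : ZMod p) = (((2 * b).choose b : ℕ) : ZMod p) :=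
      (sub_eq_zero.1 h).symm
    rw [h5] at h4
    linear_combination h4
  rw [ZMod.natCast_eq_zero_iff] at h3
  have hprime : p.Prime := Fact.out
  have hfac : p ∣ (2 * b).factorial := by
    rw [← Nat.choose_mul_factorial_mul_factorial (show b ≤ 2 * b by omega)]
    exact Dvd.dvd.mul_right (Dvd.dvd.mul_right h3 _) _
  have := (hprime.dvd_factorial).1 hfac
  omega

/-- **Erdős–Heilbronn**, in the range in which the bound is at most `p`. -/
theorem erdos_heilbronn (D : Finset (ZMod p)) (hD : 2 * D.card - 4 < p) :
    2 * D.card - 3 ≤ (D.offDiag.image (fun q => q.1 + q.2)).card := by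
  classical
  by_contra hcon
  push Not at hcon
  set k := D.card with hk
  set R := D.offDiag.image (fun q => q.1 + q.2) with hR
  have hk2 : 2 ≤ k := by omega
  have hne : D.Nonempty := by rw [← card_pos]; omega
  obtain ⟨d, hd⟩ := hne
  set L : List (ZMod p) := R.toList ++ List.replicate (2 * k - 4 - R.card) 0 with hL
  have hLlen : L.length = 2 * k - 4 := by
    rw [hL, List.length_append, length_toList, List.length_replicate]
    omega
  have hcoef : coeff (ex (k - 1) (k - 2)) (P L) ≠ 0 := by
    rw [coeff_P L (k - 1) (k - 2) (by omega), hLlen]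
    exact kk_ne_zero hk2 hD
  have hdeg : (P L).totalDegree = (ex (k - 1) (k - 2)).degree := by
    apply le_antisymm
    · rw [ex_degree]
      refine (totalDegree_P L).trans ?_
      omega
    · have := le_totalDegree (mem_support_iff.2 hcoef)
      rw [Finsupp.degree_apply]
      exact this
  obtain ⟨s, hs, hs0⟩ := combinatorial_nullstellensatz_exists_eval_nonzero (P L)
    (ex (k - 1) (k - 2)) hcoef hdeg (fun i => if i = 0 then D else D.erase d) (by
      intro i
      fin_cases i
      · simp only [Fin.zero_eta, ↓reduceIte, ex_zero]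
        omega
      · simp only [Fin.mk_one, one_ne_zero, ↓reduceIte, ex_one]
        rw [card_erase_of_mem hd]
        omega)
  apply hs0
  have h0 : s 0 ∈ D := by have := hs 0; simpa using this
  have h1 : s 1 ∈ D := by
    have := hs 1
    simp only [one_ne_zero, ↓reduceIte] at this
    exact mem_of_mem_erase this
  unfold P
  rw [map_mul]
  by_cases heq : s 0 = s 1
  · rw [map_sub, eval_X, eval_X, heq, sub_self, zero_mul]
  · have hmem : s 0 + s 1 ∈ L := by
      rw [hL, List.mem_append]
      left
      rw [mem_toList, hR, mem_image]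
      exact ⟨(s 0, s 1), mem_offDiag.2 ⟨h0, h1, heq⟩, rfl⟩
    rw [map_list_prod, List.map_map]
    rw [List.prod_eq_zero, mul_zero]
    rw [List.mem_map]
    exact ⟨s 0 + s 1, hmem, by simp⟩

end Pool.Agent.Q248.EH
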