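import Pool.Agent.Q248.EH.Basic

/-!
# Sets with no relation `± a ± b ± c = 0` between three distinct elements in `ℤ_p`
-/

namespace Pool.Agent.Q248.EH

open Finset
open scoped Pointwise

/-- no signed relation between three distinct elements -/
def Good {n : ℕ} (A : Finset (ZMod n)) : Prop :=
  ∀ a ∈ A, ∀ b ∈ A, ∀ c ∈ A, a ≠ b → a ≠ c → b ≠ c → a + b + c ≠ 0 ∧ a + b ≠ c

instance {n : ℕ} (A : Finset (ZMod n)) : Decidable (Good A) := by
  unfold Good; infer_instance

variable {p : ℕ} [hpf : Fact p.Prime]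

theorem three_ne {p : ℕ} [hpf : Fact p.Prime] (h5 : 5 ≤ p) {x : ZMod p} (hx : x ≠ 0) :
    x + x + x ≠ 0 := by
  intro h
  have h3 : (3 : ZMod p) * x = 0 := by linear_combination h
  rcases mul_eq_zero.1 h3 with h3 | h3
  · have : ((3 : ℕ) : ZMod p) = 0 := by exact_mod_cast h3
    rw [ZMod.natCast_eq_zero_iff] at this
    have := Nat.le_of_dvd (by norm_num) this
    omega
  · exact hx h3

theorem two_ne {p : ℕ} [hpf : Fact p.Prime] (h5 : 5 ≤ p) {x : ZMod p} (hx : x ≠ 0) :
    x + x ≠ 0 := by
  intro h
  have h3 : (2 : ZMod p) * x = 0 := by linear_combination h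
  rcases mul_eq_zero.1 h3 with h3 | h3
  · have : ((2 : ℕ) : ZMod p) = 0 := by exact_mod_cast h3
    rw [ZMod.natCast_eq_zero_iff] at this
    have := Nat.le_of_dvd (by norm_num) this
    omega
  · exact hx h3

/-- symmetric closure of the nonzero part -/
def DD (A : Finset (ZMod p)) : Finset (ZMod p) :=
  univ.filter (fun x => x ≠ 0 ∧ (x ∈ A ∨ -x ∈ A))

theorem mem_DD {A : Finset (ZMod p)} {x : ZMod p} : x ∈ DD A ↔ x ≠ 0 ∧ (x ∈ A ∨ -x ∈ A) := by
  simp [DD]

theorem neg_mem_DD {A : Finset (ZMod p)} {x : ZMod p} (h : x ∈ DD A) : -x ∈ DD A := by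
  rw [mem_DD] at h ⊢
  rw [neg_neg]
  exact ⟨neg_ne_zero.2 h.1, h.2.symm⟩

/-- if the classes are distinct there is no relation -/
theorem Good.rel {A : Finset (ZMod p)} (hA : Good A) {x y z : ZMod p} (hx : x ∈ A ∨ -x ∈ A)
    (hy : y ∈ A ∨ -y ∈ A) (hz : z ∈ A ∨ -z ∈ A) (hxy : x ≠ y) (hxy' : x ≠ -y) (hxz : x ≠ z)
    (hxz' : x ≠ -z) (hyz : y ≠ z) (hyz' : y ≠ -z) : x + y ≠ z := by
  intro h
  rcases hx with hx | hx <;> rcases hy with hy | hy <;> rcases hz with hz | hz
  · exact (hA x hx y hy z hz hxy hxz hyz).2 h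
  · exact (hA x hx y hy (-z) hz hxy hxz' hyz').1 (by linear_combination h)
  · exact (hA z hz (-y) hy x hx (by rintro rfl; exact hyz' (neg_neg y).symm) (Ne.symm hxz)
      (by rintro rfl; exact hxy' rfl)).2 (by linear_combination -h)
  · exact (hA x hx (-z) hz (-y) hy hxz' hxy' (by
      intro h'; exact hyz (neg_injective h'.symm))).2 (by linear_combination h)
  · exact (hA z hz (-x) hx y hy (by rintro rfl; exact hxz' (neg_neg x).symm) (Ne.symm hyz)
      (by rintro rfl; exact hxy' (neg_neg x).symm)).2 (by linear_combination -h)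
  · exact (hA y hy (-z) hz (-x) hx hyz' (by rintro rfl; exact hxy' (neg_neg x).symm)
      (by intro h'; exact hxz (neg_injective h'.symm))).2 (by linear_combination h)
  · exact (hA (-x) hx (-y) hy z hz (by intro h'; exact hxy (neg_injective h'))
      (by rintro rfl; exact hxz' (neg_neg x).symm)
      (by rintro rfl; exact hyz' (neg_neg y).symm)).1 (by linear_combination -h)
  · exact (hA (-x) hx (-y) hy (-z) hz (by intro h'; exact hxy (neg_injective h'))
      (by intro h'; exact hxz (neg_injective h'))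
      (by intro h'; exact hyz (neg_injective h'))).2 (by linear_combination -h)

/-- pairs have no double in `DD` -/
theorem Good.pair {A : Finset (ZMod p)} (h5 : 5 ≤ p) (hA : Good A) {x : ZMod p} (hx0 : x ≠ 0)
    (hx : x ∈ A) (hx' : -x ∈ A) : x + x ∉ DD A := by
  intro h
  rw [mem_DD] at h
  have h2 := two_ne h5 hx0
  have h3 := three_ne h5 hx0
  have hne : x ≠ -x := fun h' => h2 (by linear_combination h')
  rcases h.2 with h' | h'
  · -- `x + x = x - (-x)`: `(x + x) + (-x) = x`
    exact (hA (x + x) h' (-x) hx' x hx (fun e => h3 (by linear_combination e))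
      (fun e => hx0 (by linear_combination e)) (Ne.symm hne)).2 (by ring)
  · exact (hA (-(x + x)) h' x hx (-x) hx' (fun e => h3 (by linear_combination -e))
      (fun e => hx0 (by linear_combination -e)) hne).2 (by ring)

/-- the key claim -/
theorem Good.key {A : Finset (ZMod p)} (h5 : 5 ≤ p) (hA : Good A) {x y : ZMod p}
    (hx : x ∈ DD A) (hy : y ∈ DD A) (hxy : x ≠ y) (hz : x + y ∈ DD A) :
    (x + y = -x ∨ x + y = -y) ∧ (x + y) + (x + y) ∈ DD A ∧
      ¬ ((x + y) ∈ A ∧ -(x + y) ∈ A) := by
  have hx1 := mem_DD.1 hx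
  have hy1 := mem_DD.1 hy
  have hz1 := mem_DD.1 hz
  have hxy' : x ≠ -y := by rintro rfl; exact hz1.1 (by ring)
  have hcases : x + y = -x ∨ x + y = -y := by
    by_contra hcon
    rw [not_or] at hcon
    refine hA.rel hx1.2 hy1.2 hz1.2 hxy hxy' ?_ ?_ ?_ ?_ rfl
    · intro h; exact hy1.1 (by linear_combination -h)
    · intro h; exact hcon.1 (by linear_combination h)
    · intro h; exact hx1.1 (by linear_combination -h)
    · intro h; exact hcon.2 (by linear_combination h)
  refine ⟨hcases, ?_⟩
  have hdouble : (x + y) + (x + y) ∈ DD A := by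
    rcases hcases with h | h
    · have : (x + y) + (x + y) = y := by linear_combination h
      rw [this]; exact hy
    · have : (x + y) + (x + y) = x := by linear_combination h
      rw [this]; exact hx
  exact ⟨hdouble, fun hh => hA.pair h5 hz1.1 hh.1 hh.2 hdouble⟩

theorem Good.two_card_le {A : Finset (ZMod p)} (h5 : 5 ≤ p) (hA : Good A) :
    2 * (DD A).card ≤ p + 3 := by
  rcases (DD A).eq_empty_or_nonempty with h | ⟨z, hz⟩
  · rw [h, card_empty]; omega
  have hsub : DD A ∩ (DD A).image (fun x => z - x) ⊆ {z / 2, -z, z + z} := by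
    intro x hx
    rw [mem_inter, mem_image] at hx
    obtain ⟨hx, y, hy, hxy⟩ := hx
    have hsum : x + y = z := by linear_combination -hxy
    rw [mem_insert, mem_insert, mem_singleton]
    by_cases hne : x = y
    · left
      subst hne
      have h2 : (2 : ZMod p) ≠ 0 := by
        intro h
        have := two_ne h5 (one_ne_zero (α := ZMod p))
        exact this (by rw [one_add_one_eq_two]; exact h)
      field_simp
      linear_combination hsum
    · right
      have := (hA.key h5 hx hy hne (by rw [hsum]; exact hz)).1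
      rcases this with h | h
      · left; linear_combination h - hsum
      · right; linear_combination 2 * hsum - h
  have hcard : (DD A ∩ (DD A).image (fun x => z - x)).card ≤ 3 :=
    (card_le_card hsub).trans (card_le_three)
  have himg : ((DD A).image (fun x => z - x)).card = (DD A).card :=
    card_image_of_injective _ (fun a b h => by simpa using h)
  have hun : (DD A ∪ (DD A).image (fun x => z - x)).card ≤ p := by
    calc _ ≤ Fintype.card (ZMod p) := card_le_univ _
      _ = p := ZMod.card p
  have := card_union_add_card_inter (DD A) ((DD A).image (fun x => z - x))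
  omega

/-- the exceptional elements -/
def EE (A : Finset (ZMod p)) : Finset (ZMod p) :=
  (DD A).filter (fun x => ¬ (x ∈ A ∧ -x ∈ A))

theorem Good.three_card_le {A : Finset (ZMod p)} (h5 : 5 ≤ p) (hA : Good A) :
    3 * (DD A).card ≤ p + 3 + (EE A).card := by
  have h1 := hA.two_card_le h5
  have hEH := erdos_heilbronn (DD A) (by omega)
  have hsub : (DD A).offDiag.image (fun q => q.1 + q.2) ⊆ (DD A)ᶜ ∪ EE A := by
    intro z hz
    rw [mem_image] at hz
    obtain ⟨⟨x, y⟩, hxy, rfl⟩ := hz
    rw [mem_offDiag] at hxy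
    obtain ⟨hx, hy, hne⟩ := hxy
    simp only at hx hy hne ⊢
    rw [mem_union, mem_compl]
    by_cases hz : x + y ∈ DD A
    · right
      rw [EE, mem_filter]
      exact ⟨hz, (hA.key h5 hx hy hne hz).2.2⟩
    · left; exact hz
  have h2 := (card_le_card hsub).trans (card_union_le _ _)
  rw [card_compl, ZMod.card] at h2
  have h3 : (DD A).card ≤ p := by
    calc _ ≤ Fintype.card (ZMod p) := card_le_univ _
      _ = p := ZMod.card p
  omega

theorem card_EE {A : Finset (ZMod p)} :
    (EE A).card + 2 * (A.erase 0).card = 2 * (DD A).card := by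
  set A' := A.erase 0 with hA'
  set N := A'.image (fun x => -x) with hN
  have hmemN : ∀ x, x ∈ N ↔ x ≠ 0 ∧ -x ∈ A := by
    intro x
    rw [hN, mem_image]
    constructor
    · rintro ⟨a, ha, rfl⟩
      rw [hA', mem_erase] at ha
      exact ⟨neg_ne_zero.2 ha.1, by rw [neg_neg]; exact ha.2⟩
    · rintro ⟨h1, h2⟩
      exact ⟨-x, by rw [hA', mem_erase]; exact ⟨neg_ne_zero.2 h1, h2⟩, neg_neg x⟩
  have hunion : DD A = A' ∪ N := by
    ext x
    rw [mem_DD, mem_union, hmemN, hA', mem_erase]
    tauto
  have hNc : N.card = A'.card := card_image_of_injective _ neg_injective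
  have hinter : (A' ∩ N).card + (EE A).card = (DD A).card := by
    have : A' ∩ N = (DD A).filter (fun x => x ∈ A ∧ -x ∈ A) := by
      ext x
      rw [mem_inter, hmemN, mem_filter, mem_DD, hA', mem_erase]
      tauto
    rw [this, EE]
    exact card_filter_add_card_filter_not _
  have := card_union_add_card_inter A' N
  rw [← hunion] at this
  omega

/-- the upper bound -/
theorem Good.card_le {A : Finset (ZMod p)} (h7 : 7 ≤ p) (hA : Good A) : A.card ≤ p / 3 + 1 := by
  have h5 : 5 ≤ p := by omega
  have h1 := hA.three_card_le h5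
  have h2 := card_EE (A := A)
  by_cases h0 : (0 : ZMod p) ∈ A
  · -- no pairs
    have hEE : EE A = DD A := by
      rw [EE, filter_eq_self]
      rintro x hx ⟨hx1, hx2⟩
      have hx0 := (mem_DD.1 hx).1
      have hne : x ≠ -x := fun h' => two_ne h5 hx0 (by linear_combination h')
      exact (hA x hx1 (-x) hx2 0 h0 hne hx0 (neg_ne_zero.2 hx0)).2 (by ring)
    rw [hEE] at h1 h2
    have h3 : (A.erase 0).card = A.card - 1 := card_erase_of_mem h0
    have h4 : 0 < A.card := card_pos.2 ⟨0, h0⟩
    omega
  · have h3 : A.erase 0 = A := erase_eq_of_notMem h0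
    rw [h3] at h2
    rcases Nat.eq_zero_or_pos (EE A).card with hE | hE
    · -- all pairs
      have hE' : EE A = ∅ := card_eq_zero.1 hE
      have hpair : ∀ x ∈ DD A, x ∈ A ∧ -x ∈ A := by
        intro x hx
        by_contra hcon
        have : x ∈ EE A := by rw [EE, mem_filter]; exact ⟨hx, hcon⟩
        rw [hE'] at this
        simp at this
      rcases (DD A).eq_empty_or_nonempty with hD | hD
      · rw [hD, card_empty] at h2
        omega
      have hdisj : Disjoint (DD A + DD A) (DD A) := by
        rw [disjoint_left]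
        intro z hz hz'
        rw [mem_add] at hz
        obtain ⟨x, hx, y, hy, rfl⟩ := hz
        by_cases hne : x = y
        · subst hne
          exact hA.pair h5 (mem_DD.1 hx).1 (hpair x hx).1 (hpair x hx).2 hz'
        · exact (hA.key h5 hx hy hne hz').2.2 (hpair _ hz')
      have hCD := ZMod.cauchy_davenport (p := p) Fact.out hD hD
      have hcu : (DD A + DD A).card + (DD A).card ≤ p := by
        rw [← card_union_of_disjoint hdisj]
        calc _ ≤ Fintype.card (ZMod p) := card_le_univ _
          _ = p := ZMod.card p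
      have hpos := hD.card_pos
      rw [min_le_iff] at hCD
      omega
    · omega

/-- lower bound, `p = 3 q + 2` -/
theorem exists_good_two {p : ℕ} (q : ℕ) (hq : p = 3 * q + 2) :
    ∃ A : Finset (ZMod p), Good A ∧ A.card = q + 1 := by
  subst hq
  have key : ∀ m : ℤ, ((m : ℤ) : ZMod (3 * q + 2)) = 0 → ∃ t : ℤ, m = (3 * q + 2) * t := by
    intro m hm
    rw [ZMod.intCast_zmod_eq_zero_iff_dvd] at hm
    push_cast at hm
    exact hm
  refine ⟨(range (q + 1)).image (fun i : ℕ => ((3 * i + 1 : ℕ) : ZMod (3 * q + 2))), ?_, ?_⟩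
  · intro a ha b hb c hc _ _ _
    rw [mem_image] at ha hb hc
    obtain ⟨i, hi, rfl⟩ := ha
    obtain ⟨j, hj, rfl⟩ := hb
    obtain ⟨k, hk, rfl⟩ := hc
    rw [mem_range] at hi hj hk
    constructor
    · intro h
      obtain ⟨t, ht⟩ := key ((3 * i + 1) + (3 * j + 1) + (3 * k + 1)) (by
        push_cast at h ⊢; exact h)
      have t1 : 0 < t := by
        by_contra hcon; push Not at hcon; nlinarith
      have t2 : t < 3 := by
        by_contra hcon; push Not at hcon; nlinarith
      have : t = 1 ∨ t = 2 := by omega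
      rcases this with rfl | rfl <;> omega
    · intro h
      obtain ⟨t, ht⟩ := key ((3 * i + 1) + (3 * j + 1) - (3 * k + 1)) (by
        push_cast at h ⊢; rw [h]; ring)
      have t1 : -1 < t := by
        by_contra hcon; push Not at hcon; nlinarith
      have t2 : t < 2 := by
        by_contra hcon; push Not at hcon; nlinarith
      have : t = 0 ∨ t = 1 := by omega
      rcases this with rfl | rfl <;> omega
  · rw [card_image_of_injOn, card_range]
    intro i hi j hj hij
    rw [mem_coe, mem_range] at hi hj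
    simp only at hij
    rw [ZMod.natCast_eq_natCast_iff'] at hij
    rw [Nat.mod_eq_of_lt (by omega), Nat.mod_eq_of_lt (by omega)] at hij
    omega

/-- lower bound, `p = 3 q + 1` -/
theorem exists_good_one {p : ℕ} (q : ℕ) (hq0 : 2 ≤ q) (hq : p = 3 * q + 1) :
    ∃ A : Finset (ZMod p), Good A ∧ A.card = q + 1 := by
  subst hq
  have key : ∀ m : ℤ, ((m : ℤ) : ZMod (3 * q + 1)) = 0 → ∃ t : ℤ, m = (3 * q + 1) * t := by
    intro m hm
    rw [ZMod.intCast_zmod_eq_zero_iff_dvd] at hm
    push_cast at hm
    exact hm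
  -- elements: naturals `x` with `x = 1` or `x = 3 i + 2`
  refine ⟨((range (q + 1)).image (fun i : ℕ =>
    (((if i = 0 then 1 else 3 * i - 1 : ℕ)) : ZMod (3 * q + 1)))), ?_, ?_⟩
  · intro a ha b hb c hc hab hac hbc
    rw [mem_image] at ha hb hc
    obtain ⟨i, hi, rfl⟩ := ha
    obtain ⟨j, hj, rfl⟩ := hb
    obtain ⟨k, hk, rfl⟩ := hc
    rw [mem_range] at hi hj hk
    have hij : i ≠ j := by rintro rfl; exact hab rfl
    have hik : i ≠ k := by rintro rfl; exact hac rfl
    have hjk : j ≠ k := by rintro rfl; exact hbc rfl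
    obtain ⟨x, hx⟩ : ∃ x : ℤ, x = ((if i = 0 then 1 else 3 * i - 1 : ℕ) : ℤ) := ⟨_, rfl⟩
    obtain ⟨y, hy⟩ : ∃ x : ℤ, x = ((if j = 0 then 1 else 3 * j - 1 : ℕ) : ℤ) := ⟨_, rfl⟩
    obtain ⟨z, hz⟩ : ∃ x : ℤ, x = ((if k = 0 then 1 else 3 * k - 1 : ℕ) : ℤ) := ⟨_, rfl⟩
    have hx' : (i = 0 ∧ x = 1) ∨ (0 < i ∧ x = 3 * i - 1) := by
      split_ifs at hx with h <;> omega
    have hy' : (j = 0 ∧ y = 1) ∨ (0 < j ∧ y = 3 * j - 1) := by
      split_ifs at hy with h <;> omega
    have hz' : (k = 0 ∧ z = 1) ∨ (0 < k ∧ z = 3 * k - 1) := by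
      split_ifs at hz with h <;> omega
    have hxle : x ≤ 3 * q - 1 := by omega
    have hyle : y ≤ 3 * q - 1 := by omega
    have hzle : z ≤ 3 * q - 1 := by omega
    have hxge : 1 ≤ x := by omega
    have hyge : 1 ≤ y := by omega
    have hzge : 1 ≤ z := by omega
    constructor
    · intro h
      obtain ⟨t, ht⟩ := key (x + y + z) (by rw [hx, hy, hz]; push_cast at h ⊢; exact h)
      have t1 : 0 < t := by
        by_contra hcon; push Not at hcon; nlinarith
      have t2 : t < 3 := by
        by_contra hcon; push Not at hcon; nlinarith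
      have : t = 1 ∨ t = 2 := by omega
      rcases this with rfl | rfl <;> omega
    · intro h
      obtain ⟨t, ht⟩ := key (x + y - z) (by
        rw [hx, hy, hz]; push_cast at h ⊢; rw [h]; ring)
      have t1 : -1 < t := by
        by_contra hcon; push Not at hcon; nlinarith
      have t2 : t < 2 := by
        by_contra hcon; push Not at hcon; nlinarith
      have : t = 0 ∨ t = 1 := by omega
      rcases this with rfl | rfl <;> omega
  · rw [card_image_of_injOn, card_range]
    intro i hi j hj hij
    rw [mem_coe, mem_range] at hi hj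
    simp only at hij
    rw [ZMod.natCast_eq_natCast_iff'] at hij
    rw [Nat.mod_eq_of_lt (by split_ifs <;> omega), Nat.mod_eq_of_lt (by split_ifs <;> omega)] at hij
    split_ifs at hij <;> omega

end Pool.Agent.Q248.EH
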